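import Pool.Agent.H484.AL.Stm

/-!
# Project AL, task SEL: selection of a good set (helper553, for helper484)
-/

set_option autoImplicit false

namespace Pool.Agent.H484.AL

open Finset
open scoped Classical

namespace SELx

theorem kapb {e B g M a0 J : ℕ} {α : Fin e → ℕ} (h : Reg e B g M a0 α J) {t : ℕ}
    {j : Fin e → ℕ} (hj : j ∈ jset e J) : 1 ≤ t + ∑ i, j i := by
  have he := h.he
  have hJ := h.hJ
  have h1 : ∀ i, 3 * J ≤ j i := by
    intro i
    unfold jset at hj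
    rw [Fintype.mem_piFinset] at hj
    exact (mem_Ico.1 (hj i)).1
  have h2 : j ⟨0, by omega⟩ ≤ ∑ i, j i := single_le_sum (fun i _ => Nat.zero_le _) (mem_univ _)
  have h3 := h1 ⟨0, by omega⟩
  omega

theorem pos_of_NN {e g M a0 B : ℕ} {α b : Fin e → ℕ} {t : ℕ} {j : Fin e → ℕ}
    (h : 1 ≤ NN e g M a0 B α b t j) : ∃ (k : ℕ) (l : Fin e → ℕ), l ∈ Lset e g B α j ∧
      kap e (g * M) B t j < k ∧ k ≤ 2 * kap e (g * M) B t j ∧
      g * M ∣ g * a0 * k + ∑ i, (α i + g * b i) * l i := by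
  unfold NN at h
  obtain ⟨l, hl⟩ := Finset.card_pos.1 (show 0 < _ from h)
  rw [mem_filter] at hl
  obtain ⟨hl1, k, hk1, hk2, hk3⟩ := hl
  exact ⟨k, l, hl1, hk1, by omega, hk3⟩

end SELx

open SELx in
theorem t_SEL (hSEP : S_SEP) (hKAP : S_KAP) : S_SEL := by
  intro e R B g M a0 J α b t0 t1 hB hR hreg ht1
  have hB64 := hreg.hB
  have hJ := hreg.hJ
  have he := hreg.he
  have hN := hreg.hN
  obtain ⟨P, hP⟩ : ∃ P : Finset (ℕ × (Fin e → ℕ)), P = (Om e J t0 t1).filter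
    (fun w => 1 ≤ NN e g M a0 B α b w.1 w.2) := ⟨_, rfl⟩
  have hPm : ∀ w ∈ P, w.1 ≤ J ∧ w.2 ∈ jset e J ∧ 1 ≤ NN e g M a0 B α b w.1 w.2 ∧
      w ∈ Om e J t0 t1 := by
    intro w hw
    rw [hP, mem_filter] at hw
    have h1 := hw.1
    unfold Om at h1
    rw [mem_product, mem_Ico] at h1
    exact ⟨by omega, h1.2, hw.2, hw.1⟩
  have hch : ∀ w : ℕ × (Fin e → ℕ), ∃ (k : ℕ) (l : Fin e → ℕ), w ∈ P →
      l ∈ Lset e g B α w.2 ∧ kap e (g * M) B w.1 w.2 < k ∧ k ≤ 2 * kap e (g * M) B w.1 w.2 ∧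
      g * M ∣ g * a0 * k + ∑ i, (α i + g * b i) * l i := by
    intro w
    by_cases hw : w ∈ P
    · obtain ⟨k, l, h1⟩ := pos_of_NN (hPm w hw).2.2.1
      exact ⟨k, l, fun _ => h1⟩
    · exact ⟨0, 0, fun h => absurd h hw⟩
  choose k l hkl using hch
  -- bounds of l
  have hlb : ∀ w ∈ P, ∀ i, B ^ (w.2 i) ≤ l w i ∧ l w i < 2 * B ^ (w.2 i) := by
    intro w hw i
    have h1 := (hkl w hw).1
    unfold Lset at h1
    rw [mem_filter, Fintype.mem_piFinset] at h1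
    exact mem_Ico.1 (h1.1 i)
  have hjb : ∀ w ∈ P, ∀ i, w.2 i < 5 * J := by
    intro w hw i
    have h1 := (hPm w hw).2.1
    unfold jset at h1
    rw [Fintype.mem_piFinset] at h1
    exact (mem_Ico.1 (h1 i)).2
  obtain ⟨P', hP'⟩ : ∃ P' : Finset (ℕ × (Fin e → ℕ)), P' = P.filter
    (fun w => ¬ ∃ w' ∈ P, conf e w w' ∧ w.1 ≤ w'.1) := ⟨_, rfl⟩
  have hP'P : ∀ w ∈ P', w ∈ P := by
    intro w hw
    rw [hP', mem_filter] at hw
    exact hw.1
  have hP'n : ∀ w ∈ P', ¬ ∃ w' ∈ P, conf e w w' ∧ w.1 ≤ w'.1 := by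
    intro w hw
    rw [hP', mem_filter] at hw
    exact hw.2
  -- no conflicts
  have hnc : ∀ w ∈ P', ∀ w' ∈ P', w ≠ w' → (∀ i, w.2 i ≠ w'.2 i) ∧
      w.1 + ∑ i, w.2 i ≠ w'.1 + ∑ i, w'.2 i := by
    intro w hw w' hw' hne
    have h1 : ¬ conf e w w' := by
      intro hc
      rcases le_total w.1 w'.1 with h2 | h2
      · exact hP'n w hw ⟨w', hP'P w' hw', hc, h2⟩
      · refine hP'n w' hw' ⟨w, hP'P w hw, ⟨hc.1.symm, ?_⟩, h2⟩
        rcases hc.2 with ⟨i, hi⟩ | h3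
        · exact Or.inl ⟨i, hi.symm⟩
        · exact Or.inr h3.symm
    constructor
    · intro i hi
      exact h1 ⟨hne, Or.inl ⟨i, hi⟩⟩
    · intro h2
      exact h1 ⟨hne, Or.inr h2⟩
  have hsep : ∀ w ∈ P', ∀ w' ∈ P', w ≠ w' →
      (∀ i, R * l w i ≤ l w' i ∨ R * l w' i ≤ l w i) ∧ (R * k w ≤ k w' ∨ R * k w' ≤ k w) := by
    intro w hw w' hw' hne
    have hw1 := hP'P w hw
    have hw1' := hP'P w' hw'
    obtain ⟨h1, h2⟩ := hnc w hw w' hw' hne
    exact hSEP e R B g M a0 J α hB hreg w.1 w'.1 w.2 w'.2 (hPm w hw1).1 (hPm w' hw1').1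
      (hPm w hw1).2.1 (hPm w' hw1').2.1 h1 h2 (l w) (hkl w hw1).1 (l w') (hkl w' hw1').1
      (k w) (k w') (hkl w hw1).2.1 (hkl w hw1).2.2.1 (hkl w' hw1').2.1 (hkl w' hw1').2.2.1
  -- the vectors
  obtain ⟨v, hv⟩ : ∃ v : ℕ × (Fin e → ℕ) → (Fin (e + 1) → ℤ),
    v = fun w => Fin.cons (k w : ℤ) (fun i => (l w i : ℤ)) := ⟨_, rfl⟩
  have hv0 : ∀ w, v w 0 = (k w : ℤ) := fun w => by rw [hv]; rfl
  have hvs : ∀ w (i : Fin e), v w i.succ = (l w i : ℤ) := fun w i => by rw [hv]; rfl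
  have hlt : ∀ w ∈ P, ∀ w' ∈ P, ∀ i, w.2 i < w'.2 i → l w i < l w' i := by
    intro w hw w' hw' i h1
    have h2 := (hlb w hw i).2
    have h3 := (hlb w' hw' i).1
    have h4 : 2 * B ^ (w.2 i) ≤ B ^ (w'.2 i) := by
      calc 2 * B ^ (w.2 i) ≤ B * B ^ (w.2 i) := Nat.mul_le_mul_right _ (by omega)
        _ = B ^ (w.2 i + 1) := by ring
        _ ≤ B ^ (w'.2 i) := Nat.pow_le_pow_right (by omega) h1
    omega
  have hinj : Set.InjOn v (P' : Set (ℕ × (Fin e → ℕ))) := by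
    intro w hw w' hw' h
    by_contra hne
    rw [mem_coe] at hw hw'
    have h1 := (hnc w hw w' hw' hne).1 ⟨0, by omega⟩
    have h2 : (l w ⟨0, by omega⟩ : ℤ) = l w' ⟨0, by omega⟩ := by
      rw [← hvs, ← hvs, h]
    have h3 : l w ⟨0, by omega⟩ = l w' ⟨0, by omega⟩ := by exact_mod_cast h2
    rcases lt_or_gt_of_ne h1 with h4 | h4
    · have := hlt w (hP'P w hw) w' (hP'P w' hw') _ h4
      omega
    · have := hlt w' (hP'P w' hw') w (hP'P w hw) _ h4
      omega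
  have hkpos : ∀ w ∈ P, 1 ≤ k w := fun w hw => by
    have := (hkl w hw).2.1
    omega
  have hlpos : ∀ w ∈ P, ∀ i, 1 ≤ l w i := fun w hw i =>
    (Nat.one_le_pow _ _ (by omega)).trans (hlb w hw i).1
  have hk8 : ∀ w ∈ P, 8 * k w ≤ g * M := by
    intro w hw
    have h1 := (hKAP e B g M a0 J α hreg w.1 w.2 (hPm w hw).1 (hPm w hw).2.1).1
    have h2 := (hkl w hw).2.2.1
    have h3 : 16 ≤ B ^ (w.1 + ∑ i, w.2 i) := by
      calc 16 ≤ B ^ 1 := by rw [pow_one]; omega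
        _ ≤ B ^ (w.1 + ∑ i, w.2 i) := Nat.pow_le_pow_right (by omega)
          (kapb hreg (hPm w hw).2.1)
    calc 8 * k w ≤ kap e (g * M) B w.1 w.2 * 16 := by omega
      _ ≤ kap e (g * M) B w.1 w.2 * B ^ (w.1 + ∑ i, w.2 i) := Nat.mul_le_mul_left _ h3
      _ ≤ g * M := h1
  have hl8 : ∀ w ∈ P, ∀ i, 8 * l w i ≤ g * M := by
    intro w hw i
    have h2 := (hlb w hw i).2
    have h3 := hjb w hw i
    calc 8 * l w i ≤ B * B ^ (w.2 i) := by nlinarith
      _ = B ^ (w.2 i + 1) := by ring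
      _ ≤ B ^ (40 * e * J) := Nat.pow_le_pow_right (by omega) (by nlinarith)
      _ ≤ g * M := hN
  refine ⟨P'.image v, ⟨?_, ?_⟩, ?_⟩
  · intro x hx
    obtain ⟨w, hw, rfl⟩ := mem_image.1 hx
    have hw1 := hP'P w hw
    refine ⟨?_, ?_⟩
    · unfold Dual
      rw [Fin.sum_univ_succ, hv0]
      have h1 := (hkl w hw1).2.2.2
      have h2 : ((g * M : ℕ) : ℤ) ∣ ((g * a0 * k w + ∑ i, (α i + g * b i) * l w i : ℕ) : ℤ) :=
        Int.natCast_dvd_natCast.2 h1
      have h3 : ((g * a0 * k w + ∑ i, (α i + g * b i) * l w i : ℕ) : ℤ) =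
          ((vec e g a0 α b 0 : ℕ) : ℤ) * (k w : ℤ) +
            ∑ i : Fin e, ((vec e g a0 α b i.succ : ℕ) : ℤ) * v w i.succ := by
        simp only [hvs]
        unfold vec
        simp only [Fin.cons_zero, Fin.cons_succ]
        push_cast
        rfl
      rw [← h3]
      exact h2
    · intro i
      refine Fin.cases ?_ (fun i => ?_) i
      · rw [hv0]
        have h1 := hkpos w hw1
        have h2 := hk8 w hw1
        refine ⟨by exact_mod_cast (by omega : k w ≠ 0), ?_⟩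
        rw [abs_of_nonneg (by positivity)]
        exact_mod_cast h2
      · rw [hvs]
        have h1 := hlpos w hw1 i
        have h2 := hl8 w hw1 i
        refine ⟨by exact_mod_cast (by omega : l w i ≠ 0), ?_⟩
        rw [abs_of_nonneg (by positivity)]
        exact_mod_cast h2
  · intro x hx x' hx' hne i
    obtain ⟨w, hw, rfl⟩ := mem_image.1 hx
    obtain ⟨w', hw', rfl⟩ := mem_image.1 hx'
    have hww : w ≠ w' := fun h => hne (by rw [h])
    obtain ⟨h1, h2⟩ := hsep w hw w' hw' hww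
    refine Fin.cases ?_ (fun i => ?_) i
    · rw [hv0, hv0, abs_of_nonneg (by positivity), abs_of_nonneg (by positivity)]
      rcases h2 with h3 | h3
      · right; exact_mod_cast h3
      · left; exact_mod_cast h3
    · rw [hvs, hvs, abs_of_nonneg (by positivity), abs_of_nonneg (by positivity)]
      rcases h1 i with h3 | h3
      · right; exact_mod_cast h3
      · left; exact_mod_cast h3
  · -- the weight
    have hBR : (0 : ℝ) < (B : ℝ) := by exact_mod_cast (by omega : 0 < B)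
    have hwt : 1 / 2 ^ (e + 1) * ∑ w ∈ P', (B : ℝ) ^ w.1 ≤ wt (e + 1) (g * M) (P'.image v) := by
      unfold wt
      rw [Finset.sum_image hinj, Finset.mul_sum]
      refine Finset.sum_le_sum fun w hw => ?_
      have hw1 := hP'P w hw
      rw [Fin.prod_univ_succ, hv0]
      have h1 : ∏ i : Fin e, |((v w i.succ : ℤ) : ℝ)| = ∏ i : Fin e, (l w i : ℝ) := by
        refine Finset.prod_congr rfl fun i _ => ?_
        rw [hvs]
        push_cast
        exact abs_of_nonneg (by positivity)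
      rw [h1]
      have h2 : |(((k w : ℕ) : ℤ) : ℝ)| = (k w : ℝ) := by
        push_cast
        exact abs_of_nonneg (by positivity)
      rw [h2]
      have hkp : (0 : ℝ) < k w := by exact_mod_cast hkpos w hw1
      have hlp : (0 : ℝ) < ∏ i : Fin e, (l w i : ℝ) :=
        Finset.prod_pos fun i _ => by exact_mod_cast hlpos w hw1 i
      have h3 : ∏ i : Fin e, (l w i : ℝ) ≤ 2 ^ e * (B : ℝ) ^ (∑ i, w.2 i) := by
        have h4 : ∏ i : Fin e, (l w i : ℝ) ≤ ∏ i : Fin e, (2 * (B : ℝ) ^ (w.2 i)) := by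
          refine Finset.prod_le_prod (fun i _ => by positivity) fun i _ => ?_
          have := (hlb w hw1 i).2.le
          exact_mod_cast this
        refine h4.trans (le_of_eq ?_)
        rw [Finset.prod_mul_distrib, Finset.prod_const, Finset.card_univ, Fintype.card_fin,
          Finset.prod_pow_eq_pow_sum]
      have h4 : (k w : ℝ) ≤ 2 * (kap e (g * M) B w.1 w.2 : ℝ) := by
        exact_mod_cast (hkl w hw1).2.2.1
      have h5 : (kap e (g * M) B w.1 w.2 : ℝ) * (B : ℝ) ^ (w.1 + ∑ i, w.2 i) ≤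
          ((g * M : ℕ) : ℝ) := by
        exact_mod_cast (hKAP e B g M a0 J α hreg w.1 w.2 (hPm w hw1).1 (hPm w hw1).2.1).1
      rw [div_mul_eq_mul_div, one_mul, div_le_div_iff₀ (by positivity) (by positivity)]
      calc (B : ℝ) ^ w.1 * ((k w : ℝ) * ∏ i : Fin e, (l w i : ℝ))
          ≤ (B : ℝ) ^ w.1 * ((2 * (kap e (g * M) B w.1 w.2 : ℝ)) *
            (2 ^ e * (B : ℝ) ^ (∑ i, w.2 i))) := by
            refine mul_le_mul_of_nonneg_left ?_ (by positivity)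
            exact mul_le_mul h4 h3 hlp.le (by positivity)
        _ = ((kap e (g * M) B w.1 w.2 : ℝ) * (B : ℝ) ^ (w.1 + ∑ i, w.2 i)) * 2 ^ (e + 1) := by
            rw [pow_add, pow_succ]; ring
        _ ≤ ((g * M : ℕ) : ℝ) * 2 ^ (e + 1) := mul_le_mul_of_nonneg_right h5 (by positivity)
    refine le_trans ?_ hwt
    refine mul_le_mul_of_nonneg_left ?_ (by positivity)
    have hVV : VV e g M a0 B J t0 t1 α b = ∑ w ∈ P, (B : ℝ) ^ w.1 := by
      unfold VV
      rw [hP, Finset.sum_filter]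
    have hsplit : ∑ w ∈ P, (B : ℝ) ^ w.1 = ∑ w ∈ P', (B : ℝ) ^ w.1 +
        ∑ w ∈ P.filter (fun w => ¬ ¬ ∃ w' ∈ P, conf e w w' ∧ w.1 ≤ w'.1), (B : ℝ) ^ w.1 := by
      rw [hP', Finset.sum_filter_add_sum_filter_not]
    have hCF : ∑ w ∈ P.filter (fun w => ¬ ¬ ∃ w' ∈ P, conf e w w' ∧ w.1 ≤ w'.1), (B : ℝ) ^ w.1 ≤
        CF e g M a0 B J t0 t1 α b := by
      have hch2 : ∀ w : ℕ × (Fin e → ℕ), ∃ w' : ℕ × (Fin e → ℕ),
          w ∈ P.filter (fun w => ¬ ¬ ∃ w' ∈ P, conf e w w' ∧ w.1 ≤ w'.1) →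
            w' ∈ P ∧ conf e w w' ∧ w.1 ≤ w'.1 := by
        intro w
        by_cases hw : w ∈ P.filter (fun w => ¬ ¬ ∃ w' ∈ P, conf e w w' ∧ w.1 ≤ w'.1)
        · obtain ⟨w', h1, h2⟩ := not_not.1 (mem_filter.1 hw).2
          exact ⟨w', fun _ => ⟨h1, h2⟩⟩
        · exact ⟨w, fun h => absurd h hw⟩
      choose f hf using hch2
      unfold CF
      have hinj2 : Set.InjOn (fun w => (w, f w))
          ((P.filter (fun w => ¬ ¬ ∃ w' ∈ P, conf e w w' ∧ w.1 ≤ w'.1) :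
            Finset (ℕ × (Fin e → ℕ))) : Set (ℕ × (Fin e → ℕ))) := by
        intro w _ w' _ h
        exact (Prod.mk.inj h).1
      calc ∑ w ∈ P.filter (fun w => ¬ ¬ ∃ w' ∈ P, conf e w w' ∧ w.1 ≤ w'.1), (B : ℝ) ^ w.1
          ≤ ∑ w ∈ P.filter (fun w => ¬ ¬ ∃ w' ∈ P, conf e w w' ∧ w.1 ≤ w'.1),
            (B : ℝ) ^ w.1 * ((NN e g M a0 B α b w.1 w.2 : ℝ) *
              (NN e g M a0 B α b (f w).1 (f w).2 : ℝ)) := by
            refine Finset.sum_le_sum fun w hw => ?_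
            have h1 : (1 : ℝ) ≤ NN e g M a0 B α b w.1 w.2 := by
              exact_mod_cast (hPm w (mem_filter.1 hw).1).2.2.1
            have h2 : (1 : ℝ) ≤ NN e g M a0 B α b (f w).1 (f w).2 := by
              exact_mod_cast (hPm (f w) (hf w hw).1).2.2.1
            have h3 : (1 : ℝ) ≤ (NN e g M a0 B α b w.1 w.2 : ℝ) *
                (NN e g M a0 B α b (f w).1 (f w).2 : ℝ) := one_le_mul_of_one_le_of_one_le h1 h2
            exact le_mul_of_one_le_right (by positivity) h3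
        _ = ∑ z ∈ (P.filter (fun w => ¬ ¬ ∃ w' ∈ P, conf e w w' ∧ w.1 ≤ w'.1)).image
            (fun w => (w, f w)), (B : ℝ) ^ z.1.1 * ((NN e g M a0 B α b z.1.1 z.1.2 : ℝ) *
              (NN e g M a0 B α b z.2.1 z.2.2 : ℝ)) := by
            rw [Finset.sum_image hinj2]
        _ ≤ _ := by
            refine Finset.sum_le_sum_of_subset_of_nonneg ?_ (fun z _ _ => by positivity)
            intro z hz
            obtain ⟨w, hw, rfl⟩ := mem_image.1 hz
            obtain ⟨h1, h2, h3⟩ := hf w hw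
            rw [mem_filter, mem_product]
            exact ⟨⟨(hPm w (mem_filter.1 hw).1).2.2.2, (hPm (f w) h1).2.2.2⟩, h2, h3⟩
    linarith

end Pool.Agent.H484.AL
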